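import Mathlib

/-!
Small ball estimate for a projection of a random 0/1 vector, by induction on the dimension.
-/

set_option autoImplicit false

namespace Pool.Agent.Lib.SCT

open scoped RealInnerProductSpace BigOperators
open Real

/-- averaging one bit -/
theorem bit_avg (A g : ℝ) (hA0 : 0 ≤ A) (hA : A ≤ 2) :
    exp (-(A * g ^ 2)) + exp (-(A * (g + 1) ^ 2)) ≤ 2 * exp (-(A / 4)) := by
  have h1 : exp (-(A * g ^ 2)) + exp (-(A * (g + 1) ^ 2))
      = exp (-(A * ((g + 1 / 2) ^ 2 + 1 / 4))) * (exp (A * (g + 1 / 2)) + exp (-(A * (g + 1 / 2)))) := by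
    rw [mul_add, ← exp_add, ← exp_add]
    congr 1 <;> congr 1 <;> ring
  rw [h1]
  have h2 : exp (A * (g + 1 / 2)) + exp (-(A * (g + 1 / 2))) = 2 * cosh (A * (g + 1 / 2)) := by
    rw [cosh_eq]; ring
  rw [h2]
  have h3 : cosh (A * (g + 1 / 2)) ≤ exp ((A * (g + 1 / 2)) ^ 2 / 2) := cosh_le_exp_half_sq _
  have h4 : exp ((A * (g + 1 / 2)) ^ 2 / 2) ≤ exp (A * (g + 1 / 2) ^ 2) := by
    apply exp_le_exp.mpr
    have : (A * (g + 1 / 2)) ^ 2 / 2 = A * (g + 1 / 2) ^ 2 * (A / 2) := by ring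
    rw [this]
    have h5 : 0 ≤ A * (g + 1 / 2) ^ 2 := by positivity
    nlinarith
  calc exp (-(A * ((g + 1 / 2) ^ 2 + 1 / 4))) * (2 * cosh (A * (g + 1 / 2)))
      ≤ exp (-(A * ((g + 1 / 2) ^ 2 + 1 / 4))) * (2 * exp (A * (g + 1 / 2) ^ 2)) := by
        gcongr
        exact h3.trans h4
    _ = 2 * exp (-(A / 4)) := by
        rw [mul_left_comm, ← exp_add]
        congr 2
        ring

variable {E : Type*} [NormedAddCommGroup E] [InnerProductSpace ℝ E]
variable {ι : Type*} [Fintype ι] [DecidableEq ι]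

/-- the projection on the orthogonal complement of the vector `p` -/
noncomputable def pr (p x : E) : E := x - (⟪p, x⟫ / ‖p‖ ^ 2) • p

theorem pr_add (p x y : E) : pr p (x + y) = pr p x + pr p y := by
  unfold pr
  rw [inner_add_right, add_div, add_smul]
  abel

theorem pr_zero (p : E) : pr p (0 : E) = 0 := by
  unfold pr; simp

theorem pr_self (p : E) : pr p p = 0 := by
  unfold pr
  by_cases hp : p = 0
  · simp [hp]
  · have : ‖p‖ ≠ 0 := norm_ne_zero_iff.mpr hp
    rw [real_inner_self_eq_norm_sq, div_self (by positivity), one_smul, sub_self]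

omit [Fintype ι] in
theorem pr_sum (p : E) (s : Finset ι) (f : ι → E) : pr p (∑ i ∈ s, f i) = ∑ i ∈ s, pr p (f i) := by
  induction s using Finset.induction_on with
  | empty => simp [pr_zero]
  | insert a s ha ih => rw [Finset.sum_insert ha, Finset.sum_insert ha, pr_add, ih]

theorem inner_pr (p x y : E) : ⟪pr p x, y⟫ = ⟪x, pr p y⟫ := by
  unfold pr
  rw [inner_sub_left, inner_sub_right, inner_smul_left, inner_smul_right]
  simp only [conj_trivial]
  rw [real_inner_comm p x]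
  ring

theorem norm_pr_sq (p x : E) (hp : p ≠ 0) : ‖pr p x‖ ^ 2 = ‖x‖ ^ 2 - ⟪p, x⟫ ^ 2 / ‖p‖ ^ 2 := by
  have h0 : ‖p‖ ≠ 0 := norm_ne_zero_iff.mpr hp
  unfold pr
  rw [norm_sub_sq_real, inner_smul_right, norm_smul, mul_pow, real_inner_comm x p]
  rw [norm_div, norm_pow, norm_norm, Real.norm_eq_abs, div_pow, sq_abs]
  field_simp
  ring

theorem norm_add_smul_sq (p u : E) (hp : p ≠ 0) (β : ℝ) :
    ‖u + β • p‖ ^ 2 = ‖pr p u‖ ^ 2 + ‖p‖ ^ 2 * (⟪p, u⟫ / ‖p‖ ^ 2 + β) ^ 2 := by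
  have h0 : ‖p‖ ≠ 0 := norm_ne_zero_iff.mpr hp
  rw [norm_pr_sq p u hp, norm_add_sq_real, inner_smul_right, norm_smul, mul_pow, real_inner_comm p u]
  rw [Real.norm_eq_abs, sq_abs]
  field_simp
  ring

/-- The sum of the chosen vectors. -/
def bsum (p : ι → E) (b : ι → Bool) : E := ∑ i, if b i then p i else 0

theorem pr_bsum (p : ι → E) (q : E) (b : ι → Bool) : pr q (bsum p b) = bsum (fun i => pr q (p i)) b := by
  unfold bsum
  rw [pr_sum]
  refine Finset.sum_congr rfl fun i _ => ?_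
  split_ifs
  · rfl
  · exact pr_zero q

/-- flipping one bit -/
def flip (i : ι) (b : ι → Bool) : ι → Bool := Function.update b i (!(b i))

omit [Fintype ι] in
theorem flip_flip (i : ι) (b : ι → Bool) : flip i (flip i b) = b := by
  unfold flip
  funext j
  by_cases h : j = i
  · subst h; simp
  · simp [Function.update_of_ne h]

theorem bsum_split (p : ι → E) (i : ι) (b : ι → Bool) :
    bsum p b = (if b i then p i else 0) + ∑ j ∈ Finset.univ.erase i, (if b j then p j else 0) := by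
  unfold bsum
  exact (Finset.add_sum_erase Finset.univ (fun j => if b j then p j else 0) (Finset.mem_univ i)).symm

theorem pair_le (p : ι → E) (i : ι) (hp : p i ≠ 0) (h1 : ‖p i‖ ^ 2 ≤ 1) (v : E) (b : ι → Bool) :
    exp (-(2 * ‖v + bsum p b‖ ^ 2)) + exp (-(2 * ‖v + bsum p (flip i b)‖ ^ 2))
      ≤ 2 * exp (-(‖p i‖ ^ 2 / 2)) * exp (-(2 * ‖pr (p i) v + bsum (fun j => pr (p i) (p j)) b‖ ^ 2)) := by
  set u : E := v + ∑ j ∈ Finset.univ.erase i, (if b j then p j else 0) with hu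
  have hflip : ∑ j ∈ Finset.univ.erase i, (if flip i b j then p j else 0)
      = ∑ j ∈ Finset.univ.erase i, (if b j then p j else 0) := by
    refine Finset.sum_congr rfl fun j hj => ?_
    have : j ≠ i := (Finset.mem_erase.mp hj).1
    unfold flip
    rw [Function.update_of_ne this]
  have hfi : flip i b i = !(b i) := by unfold flip; simp
  have hpr : pr (p i) v + bsum (fun j => pr (p i) (p j)) b = pr (p i) u := by
    rw [← pr_bsum, ← pr_add, bsum_split p i b, hu]
    have : pr (p i) (v + ((if b i then p i else 0) + ∑ j ∈ Finset.univ.erase i, (if b j then p j else 0)))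
        = pr (p i) (if b i then p i else 0) + pr (p i) (v + ∑ j ∈ Finset.univ.erase i, (if b j then p j else 0)) := by
      rw [← pr_add]; congr 1; abel
    rw [this]
    have h0 : pr (p i) (if b i then p i else 0) = 0 := by
      split_ifs
      · exact pr_self _
      · exact pr_zero _
    rw [h0, zero_add]
  have key : ∀ c : Bool, v + ((if c then p i else 0) + ∑ j ∈ Finset.univ.erase i, (if b j then p j else 0))
      = u + (if c then (1 : ℝ) else 0) • p i := by
    intro c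
    rw [hu]
    cases c
    · simp
    · simp; abel
  have e1 : v + bsum p b = u + (if b i then (1 : ℝ) else 0) • p i := by
    rw [bsum_split p i b]; exact key (b i)
  have e2 : v + bsum p (flip i b) = u + (if !(b i) then (1 : ℝ) else 0) • p i := by
    rw [bsum_split p i (flip i b), hflip, hfi]; exact key (!(b i))
  rw [hpr, e1, e2]
  set g : ℝ := ⟪p i, u⟫ / ‖p i‖ ^ 2 with hg
  have hE : ∀ β : ℝ, exp (-(2 * ‖u + β • p i‖ ^ 2))
      = exp (-(2 * ‖pr (p i) u‖ ^ 2)) * exp (-((2 * ‖p i‖ ^ 2) * (g + β) ^ 2)) := by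
    intro β
    rw [norm_add_smul_sq (p i) u hp β, ← exp_add]
    congr 1
    ring
  rw [hE, hE]
  have hsum : exp (-((2 * ‖p i‖ ^ 2) * (g + (if b i then (1 : ℝ) else 0)) ^ 2))
      + exp (-((2 * ‖p i‖ ^ 2) * (g + (if !(b i) then (1 : ℝ) else 0)) ^ 2))
      ≤ 2 * exp (-((2 * ‖p i‖ ^ 2) / 4)) := by
    have h := bit_avg (2 * ‖p i‖ ^ 2) g (by positivity) (by linarith)
    cases hb : b i
    · simpa using h
    · simp only [Bool.not_true, if_true, Bool.false_eq_true, if_false, add_zero]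
      rw [add_comm]
      exact h
  have h4 : exp (-((2 * ‖p i‖ ^ 2) / 4)) = exp (-(‖p i‖ ^ 2 / 2)) := by
    congr 1; ring
  rw [h4] at hsum
  calc _ = exp (-(2 * ‖pr (p i) u‖ ^ 2)) * (exp (-((2 * ‖p i‖ ^ 2) * (g + (if b i then (1 : ℝ) else 0)) ^ 2))
      + exp (-((2 * ‖p i‖ ^ 2) * (g + (if !(b i) then (1 : ℝ) else 0)) ^ 2))) := by ring
    _ ≤ exp (-(2 * ‖pr (p i) u‖ ^ 2)) * (2 * exp (-(‖p i‖ ^ 2 / 2))) := by gcongr
    _ = _ := by ring

/-- SMALL BALL, exponential form. -/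
theorem small_ball (M : ℝ) (hM : (Fintype.card ι : ℝ) ≤ M) (w : ℕ) :
    ∀ (p : ι → E) (_ : ∀ x : E, ∑ i, ⟪p i, x⟫ ^ 2 ≤ ‖x‖ ^ 2) (_ : (w : ℝ) ≤ ∑ i, ‖p i‖ ^ 2) (v : E),
      ∑ b : ι → Bool, exp (-(2 * ‖v + bsum p b‖ ^ 2))
        ≤ 2 ^ Fintype.card ι * exp (-((w : ℝ) * (w + 1) / (4 * M))) := by
  induction w with
  | zero =>
      intro p _ _ v
      have h : ∀ b : ι → Bool, exp (-(2 * ‖v + bsum p b‖ ^ 2)) ≤ 1 := by
        intro b
        apply exp_le_one_iff.mpr
        have : 0 ≤ ‖v + bsum p b‖ ^ 2 := by positivity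
        linarith
      refine (Finset.sum_le_sum fun b _ => h b).trans ?_
      simp
  | succ w ih =>
      intro p hB hw v
      have hcard : 0 < Fintype.card ι := by
        rcases Nat.eq_zero_or_pos (Fintype.card ι) with h0 | h0
        · exfalso
          have : IsEmpty ι := Fintype.card_eq_zero_iff.mp h0
          simp only [Finset.univ_eq_empty, Finset.sum_empty] at hw
          push_cast at hw
          have : (0 : ℝ) ≤ w := Nat.cast_nonneg w
          linarith
        · exact h0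
      have hMpos : 0 < M := lt_of_lt_of_le (by exact_mod_cast hcard) hM
      obtain ⟨i, hi⟩ : ∃ i, ((w : ℝ) + 1) / M ≤ ‖p i‖ ^ 2 := by
        by_contra hcon
        push Not at hcon
        have : Nonempty ι := Fintype.card_pos_iff.mp hcard
        have h1 : ∑ i, ‖p i‖ ^ 2 < ∑ _i : ι, ((w : ℝ) + 1) / M :=
          Finset.sum_lt_sum_of_nonempty Finset.univ_nonempty fun i _ => hcon i
        rw [Finset.sum_const, Finset.card_univ, nsmul_eq_mul] at h1
        have h2 : (Fintype.card ι : ℝ) * (((w : ℝ) + 1) / M) ≤ (w : ℝ) + 1 := by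
          rw [mul_div_assoc', div_le_iff₀ hMpos]
          have : (0 : ℝ) ≤ (w : ℝ) + 1 := by positivity
          nlinarith
        push_cast at hw
        linarith
      have hpos : 0 < ‖p i‖ ^ 2 := lt_of_lt_of_le (by positivity) hi
      have hne : p i ≠ 0 := by
        intro h; rw [h] at hpos; simp at hpos
      have h1 : ‖p i‖ ^ 2 ≤ 1 := by
        have h := hB (p i)
        have h' : ⟪p i, p i⟫ ^ 2 ≤ ∑ j, ⟪p j, p i⟫ ^ 2 :=
          Finset.single_le_sum (f := fun j => ⟪p j, p i⟫ ^ 2) (fun j _ => by positivity) (Finset.mem_univ i)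
        rw [real_inner_self_eq_norm_sq] at h'
        have h'' := h'.trans h
        nlinarith
      -- the projected family
      have hB' : ∀ x : E, ∑ j, ⟪pr (p i) (p j), x⟫ ^ 2 ≤ ‖x‖ ^ 2 := by
        intro x
        have h := hB (pr (p i) x)
        have h2 : ‖pr (p i) x‖ ^ 2 ≤ ‖x‖ ^ 2 := by
          rw [norm_pr_sq _ _ hne]
          have : 0 ≤ ⟪p i, x⟫ ^ 2 / ‖p i‖ ^ 2 := by positivity
          linarith
        calc ∑ j, ⟪pr (p i) (p j), x⟫ ^ 2 = ∑ j, ⟪p j, pr (p i) x⟫ ^ 2 := by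
              refine Finset.sum_congr rfl fun j _ => ?_
              rw [inner_pr]
          _ ≤ _ := h.trans h2
      have hw' : (w : ℝ) ≤ ∑ j, ‖pr (p i) (p j)‖ ^ 2 := by
        have e : ∑ j, ‖pr (p i) (p j)‖ ^ 2 = ∑ j, ‖p j‖ ^ 2 - (∑ j, ⟪p j, p i⟫ ^ 2) / ‖p i‖ ^ 2 := by
          rw [Finset.sum_div, ← Finset.sum_sub_distrib]
          refine Finset.sum_congr rfl fun j _ => ?_
          rw [norm_pr_sq _ _ hne, real_inner_comm]
        rw [e]
        have h := hB (p i)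
        have h2 : (∑ j, ⟪p j, p i⟫ ^ 2) / ‖p i‖ ^ 2 ≤ 1 := by
          rw [div_le_one hpos]; exact h
        push_cast at hw
        linarith
      have IH := ih (fun j => pr (p i) (p j)) hB' hw' (pr (p i) v)
      have hswap : ∑ b : ι → Bool, exp (-(2 * ‖v + bsum p (flip i b)‖ ^ 2))
          = ∑ b : ι → Bool, exp (-(2 * ‖v + bsum p b‖ ^ 2)) := by
        refine Finset.sum_nbij' (fun b => flip i b) (fun b => flip i b) ?_ ?_ ?_ ?_ ?_
        · intro b _; exact Finset.mem_univ _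
        · intro b _; exact Finset.mem_univ _
        · intro b _; exact flip_flip i b
        · intro b _; exact flip_flip i b
        · intro b _; rfl
      have h2S : 2 * ∑ b : ι → Bool, exp (-(2 * ‖v + bsum p b‖ ^ 2))
          ≤ 2 * (exp (-(‖p i‖ ^ 2 / 2)) * ∑ b : ι → Bool, exp (-(2 * ‖pr (p i) v + bsum (fun j => pr (p i) (p j)) b‖ ^ 2))) := by
        calc 2 * ∑ b : ι → Bool, exp (-(2 * ‖v + bsum p b‖ ^ 2))
            = ∑ b : ι → Bool, (exp (-(2 * ‖v + bsum p b‖ ^ 2)) + exp (-(2 * ‖v + bsum p (flip i b)‖ ^ 2))) := by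
              rw [Finset.sum_add_distrib, hswap]; ring
          _ ≤ ∑ b : ι → Bool, 2 * exp (-(‖p i‖ ^ 2 / 2)) * exp (-(2 * ‖pr (p i) v + bsum (fun j => pr (p i) (p j)) b‖ ^ 2)) :=
              Finset.sum_le_sum fun b _ => pair_le p i hne h1 v b
          _ = _ := by
              rw [← Finset.mul_sum]; ring
      have hS := le_of_mul_le_mul_left h2S (by norm_num : (0 : ℝ) < 2)
      refine hS.trans ?_
      have h5 : exp (-(‖p i‖ ^ 2 / 2)) ≤ exp (-(((w : ℝ) + 1) / M / 2)) := by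
        apply exp_le_exp.mpr; linarith
      calc exp (-(‖p i‖ ^ 2 / 2)) * ∑ b : ι → Bool, exp (-(2 * ‖pr (p i) v + bsum (fun j => pr (p i) (p j)) b‖ ^ 2))
          ≤ exp (-(((w : ℝ) + 1) / M / 2)) * (2 ^ Fintype.card ι * exp (-((w : ℝ) * (w + 1) / (4 * M)))) := by
            gcongr
        _ = 2 ^ Fintype.card ι * exp (-(((w + 1 : ℕ) : ℝ) * (((w + 1 : ℕ) : ℝ) + 1) / (4 * M))) := by
            rw [mul_left_comm, ← exp_add]
            congr 2
            push_cast
            field_simp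
            ring

/-- SMALL BALL, counting form. -/
theorem small_ball_card (M : ℝ) (hM : (Fintype.card ι : ℝ) ≤ M) (w : ℕ) (p : ι → E)
    (hB : ∀ x : E, ∑ i, ⟪p i, x⟫ ^ 2 ≤ ‖x‖ ^ 2) (hw : (w : ℝ) ≤ ∑ i, ‖p i‖ ^ 2) (v : E) (R : ℝ)
    (hR : 16 * M * R ^ 2 ≤ (w : ℝ) ^ 2) (hM0 : 0 < M) :
    (Nat.card {b : ι → Bool // ‖v + bsum p b‖ ≤ R} : ℝ) ≤ 2 ^ Fintype.card ι * exp (-((w : ℝ) ^ 2 / (8 * M))) := by
  classical
  have h := small_ball M hM w p hB hw v
  rw [Nat.card_eq_fintype_card, Fintype.card_subtype]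
  have h2 : ((Finset.univ.filter fun b : ι → Bool => ‖v + bsum p b‖ ≤ R).card : ℝ) * exp (-(2 * R ^ 2))
      ≤ ∑ b : ι → Bool, exp (-(2 * ‖v + bsum p b‖ ^ 2)) := by
    rw [← nsmul_eq_mul]
    refine (Finset.card_nsmul_le_sum _ (fun b : ι → Bool => exp (-(2 * ‖v + bsum p b‖ ^ 2))) _ ?_).trans
      (Finset.sum_le_sum_of_subset_of_nonneg (Finset.filter_subset _ _) fun b _ _ => (exp_pos _).le)
    intro b hb
    have hb' := (Finset.mem_filter.mp hb).2
    apply exp_le_exp.mpr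
    have h0 : 0 ≤ ‖v + bsum p b‖ := norm_nonneg _
    nlinarith
  have h3 := h2.trans h
  have hpos : 0 < exp (-(2 * R ^ 2)) := exp_pos _
  rw [← le_div_iff₀ hpos] at h3
  refine h3.trans ?_
  rw [mul_div_assoc, ← exp_sub]
  gcongr
  have h4 : 2 * R ^ 2 ≤ (w : ℝ) ^ 2 / (8 * M) := by
    rw [le_div_iff₀ (by positivity)]; nlinarith
  have h5 : (w : ℝ) ^ 2 / (4 * M) ≤ (w : ℝ) * (w + 1) / (4 * M) := by
    gcongr
    have : (0 : ℝ) ≤ w := Nat.cast_nonneg w
    nlinarith
  have h6 : (w : ℝ) ^ 2 / (4 * M) = (w : ℝ) ^ 2 / (8 * M) + (w : ℝ) ^ 2 / (8 * M) := by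
    field_simp
    ring
  linarith

end Pool.Agent.Lib.SCT
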